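import Pool.Agent.P8H90.SPModel
import Pool.Agent.V11244.TreeF

/-!
# Strongly proper forcings without atoms destroy winning strategies in the Menger game
-/

namespace Pool.Agent.P8H90.SPMenger

set_option linter.unusedSectionVars false

open Pool.Agent.Helper669.Forcing
open Pool.Agent.V11244.CohGame
open Pool.Agent.P8H90.SPModel
open Set TopologicalSpace

universe u

theorem polish_can : PolishSpace Can :=
  { (inferInstance : SecondCountableTopology Can), (inferInstance : IsCompletelyMetrizableSpace Can)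
    with }

variable {P : Type u} [Preorder P]

/-- Names for families of subsets of the Cantor space. -/
abbrev Nm (P : Type u) : Type u := Set Can → Set P

/-- The named family is a cover by ground model open sets, closed under finite unions. -/
def fLegal (A : Nm P) : Set P :=
  fand (fOpenCover A) (fall fun F : Finset (Set Can) =>
    fimp (fall fun O : Set Can => fall fun _ : O ∈ F => meets (A O)) (meets (A (⋃ O ∈ F, O))))

/-- Legal moves: names that are legal below `q₀` and consist of clopen sets. -/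
def Legal (q₀ : P) (A : Nm P) : Prop :=
  (∀ p ≤ q₀, p ∈ fLegal A) ∧ ∀ O, (A O).Nonempty → IsClopen O

/-- What we need from a strategy. -/
structure Strat (q₀ : P) (S : (n : ℕ) → (Fin (n + 1) → Nm P) → Nm P) : Prop where
  ext : ∀ n (A B : Fin (n + 1) → Nm P), ∀ q ≤ q₀, (∀ i, q ∈ fSame (A i) (B i)) →
    ∃ r ≤ q, r ∈ fSame (S n A) (S n B)
  ans : ∀ n (A : Fin (n + 1) → Nm P), (∀ i, ∀ p ≤ q₀, p ∈ fLegal (A i)) → ∀ q ≤ q₀,
    ∃ r ≤ q, ∃ F : Finset (Set Can),
      (∀ O, ∀ r' ≤ r, r' ∈ meets (S n A O) → O ∈ F ∧ ∃ r'' ≤ r', r'' ∈ meets (A (Fin.last n) O))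
  cov : ∀ A : ℕ → Nm P, (∀ n, ∀ p ≤ q₀, p ∈ fLegal (A n)) → ∀ x, ∀ q ≤ q₀,
    ∃ r ≤ q, ∃ n O, x ∈ O ∧ r ∈ meets (S n (fun i => A i) O)

theorem meets_of_dense {N : Set P} {p : P} (h : ∀ q ≤ p, ∃ r ≤ q, r ∈ meets N) :
    p ∈ meets N := by
  intro q hq
  obtain ⟨r, hr, h1⟩ := h q hq
  obtain ⟨r', hr', s, hs, h2⟩ := h1 r le_rfl
  exact ⟨r', hr'.trans hr, s, hs, h2⟩

/-- Deciding finitely many statements. -/
theorem decide_fin (N : Nm P) (G : Finset (Set Can)) (q : P) :
    ∃ r ≤ q, ∀ O ∈ G, r ∈ meets (N O) ∨ ∀ r' ≤ r, r' ∉ meets (N O) := by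
  classical
  induction G using Finset.induction_on with
  | empty => exact ⟨q, le_rfl, by simp⟩
  | insert O G _ ih =>
    obtain ⟨r, hr, h⟩ := ih
    by_cases h1 : ∃ r' ≤ r, r' ∈ meets (N O)
    · obtain ⟨r', hr', h2⟩ := h1
      refine ⟨r', hr'.trans hr, fun O' hO' => ?_⟩
      rcases Finset.mem_insert.1 hO' with rfl | hO'
      · exact Or.inl h2
      · rcases h O' hO' with h3 | h3
        · exact Or.inl (down_meets _ _ h3 _ hr')
        · exact Or.inr fun r'' hr'' => h3 r'' (hr''.trans hr')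
    · push Not at h1
      refine ⟨r, hr, fun O' hO' => ?_⟩
      rcases Finset.mem_insert.1 hO' with rfl | hO'
      · exact Or.inr h1
      · exact h O' hO'

section

variable {q₀ : P} {S : (n : ℕ) → (Fin (n + 1) → Nm P) → Nm P} (hS : Strat q₀ S)

/-- The answer to the move `U` after the moves in the list `l` (latest first). -/
def ans (S : (n : ℕ) → (Fin (n + 1) → Nm P) → Nm P) (l : List (Nm P)) (U : Nm P) : Nm P :=
  S l.length (fun i => (U :: l)[l.length - i]'(by simp only [List.length_cons]; omega))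

/-- `r` decides the answer to be the finite set `G`. -/
def Dec (S : (n : ℕ) → (Fin (n + 1) → Nm P) → Nm P) (l : List (Nm P)) (U : Nm P) (r : P)
    (G : Finset {W : Set Can // IsClopen W}) : Prop :=
  (∀ O, ∀ r' ≤ r, r' ∈ meets (ans S l U O) → ∃ W ∈ G, W.1 = O) ∧
    ∀ W ∈ G, r ∈ meets (ans S l U W.1)

include hS

theorem exists_dec {l : List (Nm P)} (hl : ∀ A ∈ l, Legal q₀ A) {U : Nm P} (hU : Legal q₀ U)
    {q : P} (hq : q ≤ q₀) : ∃ r ≤ q, ∃ G, Dec S l U r G ∧ ∀ W ∈ G, r ∈ meets (U W.1) := by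
  classical
  obtain ⟨r, hr, F, h1⟩ := hS.ans l.length
    (fun i => (U :: l)[l.length - i]'(by simp only [List.length_cons]; omega)) (by
      intro i
      have : (U :: l)[l.length - (i : ℕ)]'(by simp only [List.length_cons]; omega) ∈ U :: l :=
        List.getElem_mem _
      rcases List.mem_cons.1 this with h | h
      · rw [h]
        exact hU.1
      · exact (hl _ h).1) q hq
  have hlast : (U :: l)[l.length - ((Fin.last l.length : Fin (l.length + 1)) : ℕ)]'(by
      simp only [List.length_cons]; omega) = U := by simp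
  simp only [hlast] at h1
  obtain ⟨r2, hr2, h2⟩ := decide_fin (ans S l U) F r
  obtain ⟨r3, hr3, h3⟩ := decide_fin U F r2
  have hcl : ∀ O, ∀ r' ≤ r3, r' ∈ meets (ans S l U O) → IsClopen O := by
    intro O r' hr' h4
    obtain ⟨-, r'', hr'', h5⟩ := h1 O r' (hr'.trans (hr3.trans hr2)) h4
    obtain ⟨-, -, s, hs, -⟩ := h5 r'' le_rfl
    exact hU.2 O ⟨s, hs⟩
  refine ⟨r3, hr3.trans (hr2.trans hr), (F.filter fun O => r3 ∈ meets (ans S l U O)).subtype
    IsClopen, ⟨fun O r' hr' h4 => ?_, fun W hW => ?_⟩, fun W hW => ?_⟩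
  · have h5 := (h1 O r' (hr'.trans (hr3.trans hr2)) h4).1
    refine ⟨⟨O, hcl O r' hr' h4⟩, ?_, rfl⟩
    rw [Finset.mem_subtype, Finset.mem_filter]
    refine ⟨h5, ?_⟩
    rcases h2 O h5 with h6 | h6
    · exact down_meets _ _ h6 _ hr3
    · exact absurd h4 (h6 r' (hr'.trans hr3))
  · rw [Finset.mem_subtype, Finset.mem_filter] at hW
    exact hW.2
  · rw [Finset.mem_subtype, Finset.mem_filter] at hW
    obtain ⟨-, r'', hr'', h5⟩ := h1 W.1 r3 (hr3.trans hr2) hW.2
    rcases h3 W.1 hW.1 with h6 | h6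
    · exact h6
    · exact absurd h5 (h6 r'' hr'')

omit hS in
/-- The points which are always covered. -/
def KK (q₀ : P) (S : (n : ℕ) → (Fin (n + 1) → Nm P) → Nm P) (l : List (Nm P)) (q : P) : Set Can :=
  {x | ∀ U, Legal q₀ U → ∀ q' ≤ q, ∃ r ≤ q', ∃ O, x ∈ O ∧ r ∈ meets (ans S l U O)}

omit hS in
/-- The cover avoiding the image of the new real. -/
def avoid (N : ℕ → Set P) (φ : Can → Can) : Nm P :=
  fun O => {r | IsClopen O ∧ Disjoint O (φ '' Val N r)}

omit hS in
theorem legal_avoid {N : ℕ → Set P} (hN : New N q₀) {φ : Can → Can} (hφ : Continuous φ)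
    (hi : Function.Injective φ) : Legal q₀ (avoid N φ) := by
  have hdown : ∀ O, Down (avoid N φ O) := fun O r hr q hq =>
    ⟨hr.1, hr.2.mono_right (image_mono (Val_anti hq))⟩
  refine ⟨fun p hp => ⟨⟨fun O => mem_fimp.2 fun q _ h => ?_, fun x => mem_fex.2 fun q hq => ?_⟩,
    fun F => mem_fimp.2 fun q _ h => ?_⟩, fun O ⟨r, hr⟩ => hr.1⟩
  · obtain ⟨r, hr, h1⟩ := exists_of_meets (hdown O) h
    exact ⟨r, hr, h1.1.isOpen⟩
  · obtain ⟨r, hr, h1⟩ : ∃ r ≤ q, x ∉ φ '' Val N r := by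
      by_cases hx : ∃ c, φ c = x
      · obtain ⟨c, rfl⟩ := hx
        obtain ⟨r, hr, h1⟩ := exists_avoid hN c (hq.trans hp)
        refine ⟨r, hr, ?_⟩
        rintro ⟨c', h2, h3⟩
        exact h1 (hi h3 ▸ h2)
      · exact ⟨q, le_rfl, fun ⟨c, _, h2⟩ => hx ⟨c, h2⟩⟩
    have h2 : IsClosed (φ '' Val N r) := ((isClosed_Val N r).isCompact.image hφ).isClosed
    obtain ⟨O, hO, hxO, h3⟩ := compact_exists_isClopen_in_isOpen h2.isOpen_compl h1
    refine ⟨r, hr, O, mem_fex_of_mem hxO (down_meets _) (meets_of_mem ⟨hO, ?_⟩)⟩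
    exact disjoint_left.2 fun y hy hy' => h3 hy hy'
  · -- finite unions
    have h1 : ∀ G : Finset (Set Can), G ⊆ F → ∃ r ≤ q, ∀ O ∈ G, r ∈ avoid N φ O := by
      classical
      intro G
      induction G using Finset.induction_on with
      | empty => exact fun _ => ⟨q, le_rfl, by simp⟩
      | insert O G _ ih =>
        intro hG
        obtain ⟨r, hr, h2⟩ := ih ((Finset.subset_insert _ _).trans hG)
        obtain ⟨r', hr', h3⟩ := exists_of_meets (hdown O)
          (down_meets _ _ (h O (hG (Finset.mem_insert_self _ _))) _ hr)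
        refine ⟨r', hr'.trans hr, fun O' hO' => ?_⟩
        rcases Finset.mem_insert.1 hO' with rfl | hO'
        · exact h3
        · exact hdown _ _ (h2 O' hO') _ hr'
    obtain ⟨r, hr, h2⟩ := h1 F subset_rfl
    refine ⟨r, hr, meets_of_mem ⟨?_, ?_⟩⟩
    · exact isClopen_biUnion_finset fun O hO => (h2 O hO).1
    · rw [disjoint_iUnion₂_left]
      exact fun O hO => (h2 O hO).2

theorem countable_KK {N : ℕ → Set P} (hN : New N q₀) {l : List (Nm P)} (hl : ∀ A ∈ l, Legal q₀ A)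
    {q : P} (hq : q ≤ q₀) : (KK q₀ S l q).Countable := by
  by_contra hunc
  have hunc' : ¬ (closure (KK q₀ S l q)).Countable := fun h => hunc (h.mono subset_closure)
  have := polish_can
  obtain ⟨φ, hφ1, hφ2, hφ3⟩ := isClosed_closure.exists_nat_bool_injection_of_not_countable hunc'
  have hU : Legal q₀ (avoid N φ) := legal_avoid hN hφ2 hφ3
  obtain ⟨r, hr, G, ⟨h1, h2⟩, h3⟩ := exists_dec hS hl hU hq
  have hdown : ∀ O, Down (avoid N φ O) := fun O r hr q hq =>
    ⟨hr.1, hr.2.mono_right (image_mono (Val_anti hq))⟩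
  obtain ⟨r1, hr1, h4⟩ : ∃ r1 ≤ r, ∀ W ∈ G, r1 ∈ avoid N φ W.1 := by
    classical
    clear h1 h2
    induction G using Finset.induction_on with
    | empty => exact ⟨r, le_rfl, by simp⟩
    | insert W G _ ih =>
      obtain ⟨r1, hr1, h4⟩ := ih fun W' hW' => h3 W' (Finset.mem_insert_of_mem hW')
      obtain ⟨r2, hr2, h5⟩ := exists_of_meets (hdown W.1)
        (down_meets _ _ (h3 W (Finset.mem_insert_self _ _)) _ hr1)
      refine ⟨r2, hr2.trans hr1, fun W' hW' => ?_⟩
      rcases Finset.mem_insert.1 hW' with rfl | hW'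
      · exact h5
      · exact hdown _ _ (h4 W' hW') _ hr2
  have hKW : closure (KK q₀ S l q) ⊆ ⋃ W ∈ G, W.1 := by
    refine closure_minimal (fun x hx => ?_) (isClosed_biUnion_finset fun W _ => W.2.isClosed)
    obtain ⟨r2, hr2, O, hxO, h5⟩ := hx (avoid N φ) hU r1 (hr1.trans hr)
    obtain ⟨W, hW, rfl⟩ := h1 O r2 (hr2.trans hr1) h5
    exact mem_iUnion₂.2 ⟨W, hW, hxO⟩
  obtain ⟨c, hc⟩ := Val_nonempty N r1
  obtain ⟨W, hW, h5⟩ := mem_iUnion₂.1 (hKW (hφ1 (mem_range_self c)))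
  exact disjoint_left.1 (h4 W hW).2 h5 (mem_image_of_mem φ hc)

end

/-! ### The play -/

/-- The indices. -/
abbrev Idx (P : Type u) : Type u := P × Finset {W : Set Can // IsClopen W}

theorem countable_clopens : Countable (Finset {W : Set Can // IsClopen W}) := by
  have h1 : Countable (Clopens Can) := (Clopens.countable_iff_secondCountable (X := Can)).2
    inferInstance
  have h2 : Countable {W : Set Can // IsClopen W} := by
    refine Function.Injective.countable (f := fun W => (⟨W.1, W.2⟩ : Clopens Can)) ?_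
    intro W W' h
    exact Subtype.ext (congrArg (fun C : Clopens Can => (C : Set Can)) h)
  exact inferInstance

section

variable (q₀ : P) (S : (n : ℕ) → (Fin (n + 1) → Nm P) → Nm P) (U₀ : Nm P)

/-- There are a move and a condition as described by the index. -/
def Sel (l : List (Nm P)) (d : Idx P) : Prop :=
  ∃ U : Nm P, Legal q₀ U ∧ ∃ r ≤ d.1, Dec S l U r d.2

open Classical in
/-- The chosen move. -/
noncomputable def Uo (l : List (Nm P)) (d : Idx P) : Nm P :=
  if h : Sel q₀ S l d then h.choose else U₀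

open Classical in
/-- The chosen condition. -/
noncomputable def ro (l : List (Nm P)) (d : Idx P) : P :=
  if h : Sel q₀ S l d then h.choose_spec.2.choose else q₀

variable {U₀}

theorem legal_Uo (hU₀ : Legal q₀ U₀) (l : List (Nm P)) (d : Idx P) :
    Legal q₀ (Uo q₀ S U₀ l d) := by
  unfold Uo
  split_ifs with h
  · exact h.choose_spec.1
  · exact hU₀

variable (U₀)

theorem ro_spec {l : List (Nm P)} {d : Idx P} (h : Sel q₀ S l d) :
    ro q₀ S l d ≤ d.1 ∧ Dec S l (Uo q₀ S U₀ l d) (ro q₀ S l d) d.2 := by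
  unfold Uo ro
  rw [dif_pos h, dif_pos h]
  exact h.choose_spec.2.choose_spec

/-- The positions (latest move first). -/
noncomputable def pos : List (Idx P) → List (Nm P)
  | [] => []
  | d :: m => Uo q₀ S U₀ (pos m) d :: pos m

theorem length_pos (m : List (Idx P)) : (pos q₀ S U₀ m).length = m.length := by
  induction m with
  | nil => rfl
  | cons d m ih => simp [pos, ih]

variable {U₀}

theorem legal_pos (hU₀ : Legal q₀ U₀) (m : List (Idx P)) :
    ∀ A ∈ pos q₀ S U₀ m, Legal q₀ A := by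
  induction m with
  | nil => intro A hA; simp [pos] at hA
  | cons d m ih =>
    intro A hA
    rcases List.mem_cons.1 hA with rfl | hA
    · exact legal_Uo q₀ S hU₀ _ d
    · exact ih A hA

variable (U₀) (M : Set P) (x : Can)

/-- The index gives an answer not containing `x`. -/
def Good (m : List (Idx P)) (d : Idx P) : Prop :=
  d.1 ∈ M ∧ Sel q₀ S (pos q₀ S U₀ m) d ∧ ∀ W ∈ d.2, x ∉ W.1

variable (en : Idx P → ℕ)

/-- The conditions forcing that `d` is chosen after `m`. -/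
def Ch (m : List (Idx P)) (d : Idx P) : Set P :=
  {r | Good q₀ S U₀ M x m d ∧ r ≤ ro q₀ S (pos q₀ S U₀ m) d ∧
    ∀ d', en d' < en d → Good q₀ S U₀ M x m d' → ∀ r' ≤ r, ¬ r' ≤ ro q₀ S (pos q₀ S U₀ m) d'}

/-- The conditions forcing that the list of the chosen indices is `m` (latest first). -/
def EE : List (Idx P) → Set P
  | [] => univ
  | d :: m => EE m ∩ Ch q₀ S U₀ M x en m d

/-- The play. -/
def play (n : ℕ) : Nm P := fun O =>
  {r | ∃ m d, m.length = n ∧ r ∈ EE q₀ S U₀ M x en (d :: m) ∧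
    r ∈ meets (Uo q₀ S U₀ (pos q₀ S U₀ m) d O)}

variable {q₀ S U₀ M x en}

theorem down_Ch (m : List (Idx P)) (d : Idx P) : Down (Ch q₀ S U₀ M x en m d) :=
  fun _ hr _ hq => ⟨hr.1, hq.trans hr.2.1, fun d' h1 h2 r' hr' => hr.2.2 d' h1 h2 r' (hr'.trans hq)⟩

theorem down_EE (m : List (Idx P)) : Down (EE q₀ S U₀ M x en m) := by
  induction m with
  | nil => exact fun _ _ _ _ => trivial
  | cons d m ih => exact fun r hr q hq => ⟨ih r hr.1 q hq, down_Ch m d r hr.2 q hq⟩

theorem mem_of_EE {r : P} : ∀ {m : List (Idx P)}, r ∈ EE q₀ S U₀ M x en m → ∀ d ∈ m, d.1 ∈ M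
  | [], _, d, hd => by simp at hd
  | e :: m, h, d, hd => by
    rcases List.mem_cons.1 hd with rfl | hd
    · exact h.2.1.1
    · exact mem_of_EE h.1 d hd

theorem Ch_unique (hen : InjOn en {d | d.1 ∈ M}) {m : List (Idx P)} {d d' : Idx P} {r : P}
    (h : r ∈ Ch q₀ S U₀ M x en m d) (h' : r ∈ Ch q₀ S U₀ M x en m d') : d = d' := by
  rcases lt_trichotomy (en d) (en d') with h1 | h1 | h1
  · exact absurd h.2.1 (h'.2.2 d h1 h.1 r le_rfl)
  · exact hen h.1.1 h'.1.1 h1
  · exact absurd h'.2.1 (h.2.2 d' h1 h'.1 r le_rfl)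

theorem EE_unique (hen : InjOn en {d | d.1 ∈ M}) {r : P} : ∀ {m m' : List (Idx P)},
    m.length = m'.length → r ∈ EE q₀ S U₀ M x en m → r ∈ EE q₀ S U₀ M x en m' → m = m'
  | [], [], _, _, _ => rfl
  | [], _ :: _, h, _, _ => by simp at h
  | _ :: _, [], h, _, _ => by simp at h
  | d :: m, d' :: m', h, h1, h2 => by
    have h3 : m = m' := EE_unique hen (by simpa using h) h1.1 h2.1
    subst h3
    rw [Ch_unique hen h1.2 h2.2]

theorem meets_play (hen : InjOn en {d | d.1 ∈ M}) {m : List (Idx P)} {d : Idx P} {r : P}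
    (h : r ∈ EE q₀ S U₀ M x en (d :: m)) (O : Set Can) :
    r ∈ meets (play q₀ S U₀ M x en m.length O) ↔ r ∈ meets (Uo q₀ S U₀ (pos q₀ S U₀ m) d O) := by
  constructor
  · intro h1
    refine meets_of_dense fun q hq => ?_
    obtain ⟨r', hr', s, ⟨m', d', h2, h3, h4⟩, h5⟩ := h1 q hq
    have h6 : d' :: m' = d :: m := EE_unique hen (by simp [h2]) (down_EE _ _ h3 _ h5)
      (down_EE _ _ h _ (hr'.trans hq))
    obtain ⟨rfl, rfl⟩ := List.cons.inj h6
    exact ⟨r', hr', down_meets _ _ h4 _ h5⟩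
  · intro h1
    exact meets_of_mem ⟨m, d, rfl, h, h1⟩

/-- What we need from the countable model and the strongly generic condition `q₁ ≤ q₀`: it forces
that the generic filter meets the sets of conditions of the model that are dense below `q₀` in the
model. -/
structure Mod (q₀ : P) (S : (n : ℕ) → (Fin (n + 1) → Nm P) → Nm P) (U₀ : Nm P) (M : Set P)
    (q₁ : P) : Prop where
  le : q₁ ≤ q₀
  gen : ∀ q ≤ q₁, ∃ r' ∈ M, r' ≤ q₀ ∧ ∀ s ∈ M, s ≤ r' → ∃ t, t ≤ s ∧ t ≤ q
  ro_mem : ∀ m : List (Idx P), (∀ d ∈ m, d.1 ∈ M) → ∀ d : Idx P, d.1 ∈ M →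
    ro q₀ S (pos q₀ S U₀ m) d ∈ M

section

variable {q₁ : P} (hM : Mod q₀ S U₀ M q₁)

include hM

theorem exists_Ch (hU₀ : Legal q₀ U₀) (hS : Strat q₀ S)
    (hx : ∀ m : List (Idx P), (∀ d ∈ m, d.1 ∈ M) → ∀ q ∈ M, q ≤ q₀ →
      x ∉ KK q₀ S (pos q₀ S U₀ m) q)
    (m : List (Idx P)) (hm : ∀ d ∈ m, d.1 ∈ M) {q : P} (hq : q ≤ q₁) :
    ∃ r ≤ q, ∃ d, r ∈ Ch q₀ S U₀ M x en m d := by
  classical
  -- a good index with a compatible condition
  have h1 : ∃ d, Good q₀ S U₀ M x m d ∧ ∃ r ≤ q, r ≤ ro q₀ S (pos q₀ S U₀ m) d := by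
    obtain ⟨s, hsM, hs0, hs⟩ := hM.gen q hq
    have h2 := hx m hm s hsM hs0
    simp only [KK, mem_ofPred_eq, not_forall] at h2
    obtain ⟨U, hU, q', hq', h3⟩ := h2
    push Not at h3
    obtain ⟨r, hr, G, h4, -⟩ := exists_dec hS (legal_pos q₀ S hU₀ m) hU (hq'.trans hs0)
    have h5 : Sel q₀ S (pos q₀ S U₀ m) (s, G) := ⟨U, hU, r, hr.trans hq', h4⟩
    refine ⟨(s, G), ⟨hsM, h5, fun W hW hxW => ?_⟩, ?_⟩
    · exact h3 r hr W.1 hxW (h4.2 W hW)
    · obtain ⟨t, ht, ht'⟩ := hs _ (hM.ro_mem m hm (s, G) hsM) (ro_spec q₀ S U₀ h5).1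
      exact ⟨t, ht', ht⟩
  have h2 : ∃ k, ∃ d, en d = k ∧ Good q₀ S U₀ M x m d ∧
      ∃ r ≤ q, r ≤ ro q₀ S (pos q₀ S U₀ m) d := by
    obtain ⟨d, h3, h4⟩ := h1
    exact ⟨en d, d, rfl, h3, h4⟩
  obtain ⟨d, h3, h4, r, h5, h6⟩ := Nat.find_spec h2
  refine ⟨r, h5, d, h4, h6, fun d' h7 h8 r' hr' h9 => ?_⟩
  rw [h3] at h7
  exact Nat.find_min h2 h7 ⟨d', rfl, h8, r', hr'.trans h5, h9⟩

theorem exists_EE (hU₀ : Legal q₀ U₀) (hS : Strat q₀ S)
    (hx : ∀ m : List (Idx P), (∀ d ∈ m, d.1 ∈ M) → ∀ q ∈ M, q ≤ q₀ →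
      x ∉ KK q₀ S (pos q₀ S U₀ m) q)
    (n : ℕ) {q : P} (hq : q ≤ q₁) : ∃ r ≤ q, ∃ m, m.length = n ∧ r ∈ EE q₀ S U₀ M x en m := by
  induction n with
  | zero => exact ⟨q, le_rfl, [], rfl, trivial⟩
  | succ n ih =>
    obtain ⟨r, hr, m, hm, h1⟩ := ih
    obtain ⟨r', hr', d, h2⟩ := exists_Ch (en := en) hM hU₀ hS hx m (mem_of_EE h1) (hr.trans hq)
    exact ⟨r', hr'.trans hr, d :: m, by simp [hm], down_EE m _ h1 _ hr', h2⟩

theorem legal_play (hen : InjOn en {d | d.1 ∈ M}) (hU₀ : Legal q₀ U₀) (hS : Strat q₀ S)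
    (hx : ∀ m : List (Idx P), (∀ d ∈ m, d.1 ∈ M) → ∀ q ∈ M, q ≤ q₀ →
      x ∉ KK q₀ S (pos q₀ S U₀ m) q) (n : ℕ) :
    ∀ p ≤ q₁, p ∈ fLegal (play q₀ S U₀ M x en n) := by
  intro p hp
  -- below `p` the play agrees with a legal move
  have key : ∀ q ≤ p, ∃ r ≤ q, ∃ U : Nm P, Legal q₀ U ∧ ∀ r' ≤ r, ∀ O,
      (r' ∈ meets (play q₀ S U₀ M x en n O) ↔ r' ∈ meets (U O)) := by
    intro q hq
    obtain ⟨r, hr, m, hm, h1⟩ := exists_EE (en := en) hM hU₀ hS hx (n + 1) (hq.trans hp)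
    cases m with
    | nil => simp at hm
    | cons d m =>
      have hm' : m.length = n := by simpa using hm
      subst hm'
      exact ⟨r, hr, _, legal_Uo q₀ S hU₀ (pos q₀ S U₀ m) d, fun r' hr' O =>
        meets_play hen (down_EE _ _ h1 _ hr') O⟩
  have hle : ∀ {r q : P}, r ≤ q → q ≤ p → r ≤ q₀ := fun h h' => (h.trans (h'.trans hp)).trans hM.le
  refine ⟨⟨fun O => mem_fimp.2 fun q hq h => ?_, fun y => mem_fex.2 fun q hq => ?_⟩,
    fun F => mem_fimp.2 fun q hq h => ?_⟩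
  · obtain ⟨r, hr, U, hU, h1⟩ := key q hq
    have h2 := (h1 r le_rfl O).1 (down_meets _ _ h _ hr)
    obtain ⟨r', hr', h3⟩ := mem_fimp.1 ((hU.1 r (hle hr hq)).1.1 O) r le_rfl h2
    exact ⟨r', hr'.trans hr, h3⟩
  · obtain ⟨r, hr, U, hU, h1⟩ := key q hq
    obtain ⟨r', hr', O, h2⟩ := mem_fex.1 ((hU.1 r (hle hr hq)).1.2 y) r le_rfl
    obtain ⟨r'', hr'', hyO, h3⟩ := mem_fex.1 h2 r' le_rfl
    exact ⟨r'', hr''.trans (hr'.trans hr), O, mem_fex_of_mem hyO (down_meets _)
      ((h1 r'' (hr''.trans hr') O).2 h3)⟩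
  · obtain ⟨r, hr, U, hU, h1⟩ := key q hq
    obtain ⟨r', hr', h2⟩ := mem_fimp.1 ((hU.1 r (hle hr hq)).2 F) r le_rfl
      fun O hO => (h1 r le_rfl O).1 (down_meets _ _ (h O hO) _ hr)
    exact ⟨r', hr'.trans hr, (h1 r' hr' _).2 h2⟩

end

theorem same_play (hen : InjOn en {d | d.1 ∈ M}) : ∀ (m : List (Idx P)) {r : P},
    r ∈ EE q₀ S U₀ M x en m → ∀ (i : ℕ) (h : m.length - 1 - i < (pos q₀ S U₀ m).length),
      i < m.length →
      r ∈ fSame (play q₀ S U₀ M x en i) ((pos q₀ S U₀ m)[m.length - 1 - i])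
  | [], _, _, i, _, hi => by simp at hi
  | d :: m, r, hr, i, h, hi => by
    rcases Nat.lt_succ_iff_lt_or_eq.1 hi with h1 | h1
    · have h2 := same_play hen m hr.1 i (by rw [length_pos]; omega) h1
      have h3 : (d :: m).length - 1 - i = (m.length - 1 - i) + 1 := by
        simp only [List.length_cons]
        omega
      have h4 : (pos q₀ S U₀ (d :: m))[(d :: m).length - 1 - i] =
          (pos q₀ S U₀ m)[m.length - 1 - i]'(by rw [length_pos]; omega) := by
        simp only [h3, pos, List.getElem_cons_succ]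
      rw [h4]
      exact h2
    · subst h1
      have h4 : (pos q₀ S U₀ (d :: m))[(d :: m).length - 1 - m.length] =
          Uo q₀ S U₀ (pos q₀ S U₀ m) d := by
        simp [pos]
      rw [h4]
      intro O
      refine ⟨mem_fimp.2 fun q hq h5 => ⟨q, le_rfl, ?_⟩, mem_fimp.2 fun q hq h5 =>
        ⟨q, le_rfl, ?_⟩⟩
      · exact (meets_play hen (down_EE _ _ hr _ hq) O).1 h5
      · exact (meets_play hen (down_EE _ _ hr _ hq) O).2 h5

end

/-- The model. -/
theorem exists_mod (hP : StronglyProper P) (q₀ : P)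
    (S : (n : ℕ) → (Fin (n + 1) → Nm P) → Nm P) (U₀ : Nm P) :
    ∃ M : Set P, M.Countable ∧ ∃ q₁, Mod q₀ S U₀ M q₁ := by
  classical
  have hc := countable_clopens
  let co : P → P → P := fun a b => if h : ∃ t, t ≤ a ∧ t ≤ b then h.choose else q₀
  have hco : ∀ a b, (∃ t, t ≤ a ∧ t ≤ b) → co a b ≤ a ∧ co a b ≤ b := by
    intro a b h
    simp only [co]
    rw [dif_pos h]
    exact h.choose_spec
  let f : Option (List (Finset {W : Set Can // IsClopen W})) → List P → P := fun k l =>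
    match k, l with
    | none, [a, b] => co a b
    | some (G :: Gs), p :: ps => ro q₀ S (pos q₀ S U₀ (ps.zip Gs)) (p, G)
    | _, _ => q₀
  obtain ⟨M, hMc, hM, hgen⟩ := exists_model hP f
  have hpM : q₀ ∈ M := hM none [] (by simp)
  have h2 : ∀ a ∈ M, ∀ b ∈ M, co a b ∈ M := fun a ha b hb => hM none [a, b] (by
    intro z hz
    simp only [List.mem_cons, List.not_mem_nil, or_false] at hz
    rcases hz with rfl | rfl
    · exact ha
    · exact hb)
  obtain ⟨q₁, hq₁, hqg⟩ := hgen q₀ hpM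
  refine ⟨M, hMc, q₁, hq₁, fun q hq => ?_, fun m hm d hd => ?_⟩
  · obtain ⟨r', hr'M, hr'⟩ := hqg q hq
    have h3 : ∃ t, t ≤ r' ∧ t ≤ q₀ := by
      obtain ⟨t, ht, ht'⟩ := hr' r' hr'M le_rfl
      exact ⟨t, ht, ht'.trans (hq.trans hq₁)⟩
    obtain ⟨h4, h5⟩ := hco r' q₀ h3
    exact ⟨co r' q₀, h2 r' hr'M q₀ hpM, h5, fun s hs hs' => hr' s hs (hs'.trans h4)⟩
  · have h3 := hM (some (d.2 :: m.map Prod.snd)) (d.1 :: m.map Prod.fst) (by
      intro z hz
      simp only [List.mem_cons, List.mem_map] at hz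
      rcases hz with rfl | ⟨e, he, rfl⟩
      · exact hd
      · exact hm e he)
    have h4 : (m.map Prod.fst).zip (m.map Prod.snd) = m := by
      clear * -
      induction m with
      | nil => rfl
      | cons a m ih => simp [ih]
    change ro q₀ S (pos q₀ S U₀ ((m.map Prod.fst).zip (m.map Prod.snd))) (d.1, d.2) ∈ M at h3
    rw [h4] at h3
    exact h3

/-- There is no winning strategy. -/
theorem no_strat (hP : StronglyProper P) {q₀ : P} {N : ℕ → Set P} (hN : New N q₀)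
    {S : (n : ℕ) → (Fin (n + 1) → Nm P) → Nm P}
    (hS' : ∀ q ≤ q₀, Strat q S) : False := by
  have hS := hS' q₀ le_rfl
  have hU₀ : Legal q₀ (avoid N id) := legal_avoid hN continuous_id Function.injective_id
  obtain ⟨M, hMc, q₁, hM⟩ := exists_mod hP q₀ S (avoid N id)
  have hS1 := hS' q₁ hM.le
  have hcl := countable_clopens
  have hMc' : Countable M := hMc.to_subtype
  obtain ⟨en0, hen0⟩ := exists_injective_nat (M × Finset {W : Set Can // IsClopen W})
  classical
  let en : Idx P → ℕ := fun d => if h : d.1 ∈ M then en0 (⟨d.1, h⟩, d.2) else 0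
  have hen : InjOn en {d | d.1 ∈ M} := by
    rintro ⟨a, G⟩ ha ⟨b, H⟩ hb hab
    simp only [mem_ofPred_eq] at ha hb
    simp only [en] at hab
    rw [dif_pos ha, dif_pos hb] at hab
    have := hen0 hab
    simp only [Prod.mk.injEq, Subtype.mk.injEq] at this
    rw [this.1, this.2]
  -- the point
  have h1 : (⋃ (m : List (M × Finset {W : Set Can // IsClopen W})) (q : {q : M // q.1 ≤ q₀}),
      KK q₀ S (pos q₀ S (avoid N id) (m.map fun d => (d.1.1, d.2))) q.1.1).Countable := by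
    refine countable_iUnion fun m => ?_
    exact countable_iUnion fun q => countable_KK hS hN (legal_pos q₀ S hU₀ _) q.2
  obtain ⟨x, hx⟩ : ∃ x, x ∉ ⋃ (m : List (M × Finset {W : Set Can // IsClopen W}))
      (q : {q : M // q.1 ≤ q₀}),
      KK q₀ S (pos q₀ S (avoid N id) (m.map fun d => (d.1.1, d.2))) q.1.1 := by
    by_contra hcon
    push Not at hcon
    rw [← eq_univ_iff_forall] at hcon
    rw [hcon] at h1
    have h2 : Countable Can := countable_univ_iff.1 h1
    obtain ⟨g, hg⟩ := (countable_iff_exists_surjective (α := Can)).1 h2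
    obtain ⟨k, hk⟩ := hg fun k => !(g k k)
    have := congrFun hk k
    simp at this
  have hx' : ∀ m : List (Idx P), (∀ d ∈ m, d.1 ∈ M) → ∀ q ∈ M, q ≤ q₀ →
      x ∉ KK q₀ S (pos q₀ S (avoid N id) m) q := by
    intro m hm q hqM hq h
    have h2 : ∃ m' : List (M × Finset {W : Set Can // IsClopen W}),
        m'.map (fun d => ((d.1.1, d.2) : Idx P)) = m := by
      clear h
      induction m with
      | nil => exact ⟨[], rfl⟩
      | cons d m ih =>
        obtain ⟨m', hm'⟩ := ih fun d hd => hm d (List.mem_cons_of_mem _ hd)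
        exact ⟨(⟨d.1, hm d List.mem_cons_self⟩, d.2) :: m', by simp [hm']⟩
    obtain ⟨m', rfl⟩ := h2
    exact hx (mem_iUnion₂.2 ⟨m', ⟨⟨q, hqM⟩, hq⟩, h⟩)
  obtain ⟨r, hr, n, O, hxO, h2⟩ := hS1.cov (play q₀ S (avoid N id) M x en)
    (legal_play hM hen hU₀ hS hx') x q₁ le_rfl
  obtain ⟨r1, hr1, m', hm', h3⟩ := exists_EE (en := en) hM hU₀ hS hx' (n + 1) hr
  cases m' with
  | nil => simp at hm'
  | cons d m =>
    have hn : m.length = n := by simpa using hm'
    rw [← length_pos q₀ S (avoid N id) m] at hn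
    subst hn
    obtain ⟨r2, hr2, h4⟩ := hS.ext (pos q₀ S (avoid N id) m).length
      (fun i => play q₀ S (avoid N id) M x en i)
      (fun i => (Uo q₀ S (avoid N id) (pos q₀ S (avoid N id) m) d ::
        pos q₀ S (avoid N id) m)[(pos q₀ S (avoid N id) m).length - i]'(by
        simp only [List.length_cons]; omega)) r1 ((hr1.trans hr).trans hM.le) (by
        intro i
        have hL := length_pos q₀ S (avoid N id) m
        have hL' := length_pos q₀ S (avoid N id) (d :: m)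
        have hi : (i : ℕ) < (pos q₀ S (avoid N id) m).length + 1 := i.2
        obtain ⟨k, hk⟩ : ∃ k : ℕ, k = (i : ℕ) := ⟨_, rfl⟩
        have h5 := same_play hen (d :: m) h3 k (by
          rw [hL']
          simp only [List.length_cons]
          omega) (by
          simp only [List.length_cons]
          omega)
        have h6 : (d :: m).length - 1 - k = (pos q₀ S (avoid N id) m).length - k := by
          simp only [List.length_cons]
          omega
        simp only [h6] at h5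
        subst hk
        exact h5)
    obtain ⟨r3, hr3, h5⟩ := mem_fimp.1 (h4 O).1 r2 le_rfl
      (down_meets _ _ h2 _ (hr2.trans hr1))
    have h6 := h3.2
    obtain ⟨W, hW, h7⟩ := ((ro_spec q₀ S (avoid N id) h6.1.2.1).2.1 O r3
      ((hr3.trans hr2).trans h6.2.1)) h5
    exact h6.1.2.2 W hW (h7 ▸ hxO)

/-! ### The game -/

theorem strat_of_winning {q₀ : P} {S : (n : ℕ) → (Fin (n + 1) → Nm P) → Nm P}
    (h : q₀ ∈ fWinning fOpenCover fFinite fOpenCover S) : Strat q₀ S where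
  ext := fun n A B q hq hAB => mem_fimp.1 (h.1 n A B) q hq hAB
  ans := by
    intro n A hAl q hq
    obtain ⟨r, hr, h1, h2⟩ := mem_fimp.1 (h.2.1 n A) q hq fun i => (hAl i q hq).1
    obtain ⟨r1, hr1, F, h3⟩ := mem_fex.1 h1 r le_rfl
    refine ⟨r1, hr1.trans hr, F, fun O r' hr' h4 => ⟨?_, ?_⟩⟩
    · obtain ⟨_, _, h5⟩ := mem_fimp.1 (h3 O) r' hr' h4
      exact h5
    · exact mem_fimp.1 (h2 O) r' (hr'.trans hr1) h4
  cov := by
    intro A hAl x q hq
    obtain ⟨r, hr, h1⟩ := mem_fimp.1 (h.2.2 A) q hq fun n => (hAl n q hq).1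
    obtain ⟨r1, hr1, O, h2⟩ := mem_fex.1 (h1.2 x) r le_rfl
    obtain ⟨r2, hr2, hxO, h3⟩ := mem_fex.1 h2 r1 le_rfl
    obtain ⟨r3, hr3, s, hs, h4⟩ := h3 r2 le_rfl
    obtain ⟨n, hn⟩ := mem_iUnion.1 hs
    exact ⟨r3, hr3.trans (hr2.trans (hr1.trans hr)), n, O, hxO, meets_of_le hn h4⟩

theorem down_winning (S : (n : ℕ) → (Fin (n + 1) → Nm P) → Nm P) :
    Down (fWinning fOpenCover fFinite fOpenCover S) :=
  down_fand (down_fall fun _ => down_fall fun _ => down_fall fun _ => down_fimp _ _)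
    (down_fand (down_fall fun _ => down_fall fun _ => down_fimp _ _)
      (down_fall fun _ => down_fimp _ _))

/-- If `P` is strongly proper for stationarily many models, and there is no atom below `p`, then
`p` forces that II has no winning strategy in the Menger game on the ground model Cantor space. -/
theorem no_menger (hP : StronglyProper P) {p : P} (hp : NoAtomBelow p) :
    p ∈ fnot (fIIWinsFin (P := P) (X := Can) fOpenCover fOpenCover) := by
  intro q hq hwin
  obtain ⟨r, hr, S, hS⟩ := mem_fex.1 hwin q le_rfl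
  obtain ⟨q₀, hq₀, N, hN⟩ := exists_new hP (p := r) fun s hs => hp s (hs.trans (hr.trans hq))
  exact no_strat hP hN fun s hs => strat_of_winning (down_winning S _ hS _ (hs.trans hq₀))

end Pool.Agent.P8H90.SPMenger
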