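import Pool.Agent.V11244.CohGame

/-!
# Strongly proper forcings without atoms add new reals
-/

namespace Pool.Agent.P8H90.SPModel

set_option linter.unusedSectionVars false

open Pool.Agent.Helper669.Forcing
open Pool.Agent.V11244.CohGame
open Set TopologicalSpace

universe u

/-- The Cantor space. -/
abbrev Can : Type := ℕ → Bool

/-- No condition below `p` is an atom: every `q ≤ p` has two incompatible extensions. -/
def NoAtomBelow {P : Type u} [Preorder P] (p : P) : Prop :=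
  ∀ q ≤ p, ∃ r ≤ q, ∃ s ≤ q, ¬ ∃ t, t ≤ r ∧ t ≤ s

/-! ### Countable submodels -/

/-- Closing under countably many operations. -/
theorem exists_model {P : Type u} [Preorder P] (hP : StronglyProper P) {K : Type} [Countable K]
    (f : K → List P → P) :
    ∃ M : Set P, M.Countable ∧ (∀ k l, (∀ z ∈ l, z ∈ M) → f k l ∈ M) ∧
      ∀ p ∈ M, ∃ q ≤ p, StronglyGeneric M q := by
  classical
  obtain ⟨en, hen⟩ := exists_injective_nat K
  let Z : Type u := P ⊕ ULift.{u} ℕ
  let F : List Z → Z := fun l => match l with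
    | [] => Sum.inr ⟨0⟩
    | [Sum.inr n] => Sum.inr ⟨n.down + 1⟩
    | Sum.inr n :: Sum.inr _ :: l' =>
      if h : ∃ k, en k = n.down then Sum.inl (f h.choose (l'.filterMap Sum.getLeft?))
      else Sum.inr ⟨0⟩
    | _ => Sum.inr ⟨0⟩
  obtain ⟨M, h1, h2, h3⟩ := hP Z Sum.inl F Sum.inl_injective
  have h4 : ∀ n : ℕ, (Sum.inr ⟨n⟩ : Z) ∈ M := by
    intro n
    induction n with
    | zero => exact h2 [] (by simp)
    | succ n ih => exact h2 [Sum.inr ⟨n⟩] (by simpa using ih)
  refine ⟨{p | (Sum.inl p : Z) ∈ M}, ?_, fun k l hl => ?_, fun p hp => h3 p hp⟩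
  · exact h1.preimage Sum.inl_injective
  · have h5 := h2 (Sum.inr ⟨en k⟩ :: Sum.inr ⟨0⟩ :: l.map Sum.inl) (by
      intro z hz
      simp only [List.mem_cons, List.mem_map] at hz
      rcases hz with rfl | rfl | ⟨a, ha, rfl⟩
      · exact h4 _
      · exact h4 _
      · exact hl a ha)
    have h6 : ∃ k', en k' = en k := ⟨k, rfl⟩
    have h7 : F (Sum.inr ⟨en k⟩ :: Sum.inr ⟨0⟩ :: l.map Sum.inl) = Sum.inl (f k l) := by
      have h8 : ((l.map Sum.inl : List Z).filterMap Sum.getLeft?) = l := by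
        rw [List.filterMap_map]
        simp [Function.comp_def]
      change (if h : ∃ k', en k' = en k then
        (Sum.inl (f h.choose ((l.map Sum.inl : List Z).filterMap Sum.getLeft?)) : Z)
        else Sum.inr ⟨0⟩) = _
      rw [dif_pos h6, h8, hen h6.choose_spec]
    rw [h7] at h5
    exact h5

/-! ### New reals -/

section

variable {P : Type u} [Preorder P]

/-- The condition `q` forces that the real named by `N` is not in the ground model. -/
def New (N : ℕ → Set P) (q : P) : Prop :=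
  ∀ x : Can, ∀ r ≤ q, ∃ r' ≤ r, ∃ i, (x i = true ∧ r' ∈ fnot (meets (N i))) ∨
    (x i = false ∧ r' ∈ meets (N i))

theorem exists_new (hP : StronglyProper P) {p : P} (hp : NoAtomBelow p) :
    ∃ q ≤ p, ∃ N : ℕ → Set P, New N q := by
  classical
  choose! g0 hg0 g1 hg1 hg using hp
  -- common extensions
  let co : P → P → P := fun a b => if h : ∃ t, t ≤ a ∧ t ≤ b then h.choose else p
  have hco : ∀ a b, (∃ t, t ≤ a ∧ t ≤ b) → co a b ≤ a ∧ co a b ≤ b := by
    intro a b h
    simp only [co]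
    rw [dif_pos h]
    exact h.choose_spec
  let f : Fin 4 → List P → P := fun k l => match k, l with
    | 0, [a] => g0 a
    | 1, [a] => g1 a
    | 2, [a, b] => co a b
    | _, _ => p
  obtain ⟨M, hMc, hM, hgen⟩ := exists_model hP f
  have hpM : p ∈ M := hM 3 [] (by simp)
  have h0 : ∀ a ∈ M, g0 a ∈ M := fun a ha => hM 0 [a] (by simpa using ha)
  have h1 : ∀ a ∈ M, g1 a ∈ M := fun a ha => hM 1 [a] (by simpa using ha)
  have h2 : ∀ a ∈ M, ∀ b ∈ M, co a b ∈ M := fun a ha b hb => hM 2 [a, b] (by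
    intro z hz
    simp only [List.mem_cons, List.not_mem_nil, or_false] at hz
    rcases hz with rfl | rfl
    · exact ha
    · exact hb)
  obtain ⟨q, hq, hqg⟩ := hgen p hpM
  obtain ⟨e, he⟩ := hMc.exists_eq_range ⟨p, hpM⟩
  refine ⟨q, hq, fun i => {e i}, fun x r hr => ?_⟩
  obtain ⟨r', hr'M, hr'⟩ := hqg r hr
  have h3 : ∃ t, t ≤ r' ∧ t ≤ p := by
    obtain ⟨t, ht, ht'⟩ := hr' r' hr'M le_rfl
    exact ⟨t, ht, ht'.trans (hr.trans hq)⟩
  obtain ⟨h4, h5⟩ := hco r' p h3
  have h6 := h2 r' hr'M p hpM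
  set s := co r' p with hs
  have key : ∀ a ∈ M, a ≤ r' → ∃ t ≤ r, ∃ i, e i = a ∧ t ∈ meets ({e i} : Set P) := by
    intro a ha har
    obtain ⟨t, ht, ht'⟩ := hr' a ha har
    rw [he] at ha
    obtain ⟨i, hi⟩ := ha
    exact ⟨t, ht', i, hi, meets_of_le (mem_singleton _) (hi ▸ ht)⟩
  obtain ⟨t0, ht0, i0, hi0, hm0⟩ := key (g0 s) (h0 s h6) ((hg0 s h5).trans h4)
  obtain ⟨t1, ht1, i1, hi1, hm1⟩ := key (g1 s) (h1 s h6) ((hg1 s h5).trans h4)
  cases hx0 : x i0 with
  | false => exact ⟨t0, ht0, i0, Or.inr ⟨hx0, hm0⟩⟩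
  | true =>
    cases hx1 : x i1 with
    | false => exact ⟨t1, ht1, i1, Or.inr ⟨hx1, hm1⟩⟩
    | true =>
      refine ⟨t0, ht0, i1, Or.inl ⟨hx1, fun t ht hmt => ?_⟩⟩
      obtain ⟨t', ht', s', hs', h7⟩ := hmt t le_rfl
      obtain ⟨t'', ht'', s'', hs'', h8⟩ := hm0 t' (ht'.trans ht)
      rw [mem_singleton_iff] at hs' hs''
      subst hs'
      subst hs''
      rw [hi1] at h7
      rw [hi0] at h8
      exact hg s h5 ⟨t'', h8, ht''.trans h7⟩

/-- The condition `r` decides the first `n` values to be those of `c`. -/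
def Dd (N : ℕ → Set P) (r : P) (n : ℕ) (c : Can) : Prop :=
  ∀ i < n, (c i = true → r ∈ meets (N i)) ∧ (c i = false → r ∈ fnot (meets (N i)))

/-- The possible values of the named real below `r`. -/
def Val (N : ℕ → Set P) (r : P) : Set Can := {c | ∀ n, ∃ r' ≤ r, Dd N r' n c}

theorem Val_anti {N : ℕ → Set P} {s r : P} (h : s ≤ r) : Val N s ⊆ Val N r := by
  intro c hc n
  obtain ⟨r', hr', h1⟩ := hc n
  exact ⟨r', hr'.trans h, h1⟩

theorem isClosed_Val (N : ℕ → Set P) (r : P) : IsClosed (Val N r) := by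
  have h1 : Val N r = ⋂ n, (fun (c : Can) (i : Fin n) => c i) ⁻¹'
      {d | ∃ r' ≤ r, ∀ i : Fin n, (d i = true → r' ∈ meets (N i)) ∧
        (d i = false → r' ∈ fnot (meets (N i)))} := by
    ext c
    simp only [Val, Dd, mem_ofPred_eq, mem_iInter, mem_preimage]
    refine forall_congr' fun n => exists_congr fun r' => and_congr_right fun _ => ?_
    exact ⟨fun h i => h i i.2, fun h i hi => h ⟨i, hi⟩⟩
  rw [h1]
  refine isClosed_iInter fun n => IsClosed.preimage ?_ (isClosed_discrete _)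
  exact continuous_pi fun i => continuous_apply _

theorem Dd_anti {N : ℕ → Set P} {s r : P} (h : s ≤ r) {n : ℕ} {c : Can} (hr : Dd N r n c) :
    Dd N s n c := fun i hi =>
  ⟨fun hc => down_meets _ _ ((hr i hi).1 hc) _ h, fun hc => down_fnot _ _ ((hr i hi).2 hc) _ h⟩

theorem Val_nonempty (N : ℕ → Set P) (r : P) : (Val N r).Nonempty := by
  have h1 : ∀ (s : P) (i : ℕ), ∃ s' ≤ s, ∃ b : Bool,
      (b = true → s' ∈ meets (N i)) ∧ (b = false → s' ∈ fnot (meets (N i))) := by
    intro s i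
    by_cases h : s ∈ fnot (meets (N i))
    · exact ⟨s, le_rfl, false, fun h' => absurd h' (by simp), fun _ => h⟩
    · simp only [fnot, mem_ofPred_eq, not_forall, not_not] at h
      obtain ⟨s', hs', h2⟩ := h
      exact ⟨s', hs', true, fun _ => h2, fun h' => absurd h' (by simp)⟩
  choose g hg b hb1 hb2 using h1
  let R : ℕ → P := fun n => Nat.rec r (fun n s => g s n) n
  have hR : ∀ n, R (n + 1) = g (R n) n := fun n => rfl
  have hle : ∀ n, R (n + 1) ≤ R n := fun n => by rw [hR]; exact hg _ _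
  refine ⟨fun n => b (R n) n, fun n => ⟨R n, ?_, ?_⟩⟩
  · induction n with
    | zero => exact le_rfl
    | succ n ih => exact (hle n).trans ih
  · induction n with
    | zero => exact fun i hi => absurd hi (Nat.not_lt_zero _)
    | succ n ih =>
      intro i hi
      rcases Nat.lt_succ_iff_lt_or_eq.1 hi with h | rfl
      · exact Dd_anti (hle n) ih i h
      · rw [hR]
        exact ⟨hb1 _ _, hb2 _ _⟩

theorem exists_avoid {N : ℕ → Set P} {q : P} (hN : New N q) (c : Can) {r : P} (hr : r ≤ q) :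
    ∃ r' ≤ r, c ∉ Val N r' := by
  obtain ⟨r', hr', i, h⟩ := hN c r hr
  refine ⟨r', hr', fun hc => ?_⟩
  obtain ⟨s, hs, h1⟩ := hc (i + 1)
  obtain ⟨h2, h3⟩ := h1 i (Nat.lt_succ_self i)
  rcases h with ⟨h4, h5⟩ | ⟨h4, h5⟩
  · exact h5 s hs (h2 h4)
  · exact h3 h4 s le_rfl (down_meets _ _ h5 _ hs)

end

end Pool.Agent.P8H90.SPModel
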